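import Pool.Agent.Q25.Tri

set_option autoImplicit false

/-!
# Conjecture F for almost all triples of height at most `H`, for all lengths simultaneously

All three coefficients vary: `1 ≤ a ≤ H`, `|b| ≤ H`, `|c| ≤ H`. For all but a proportion `(log H) ^ (-U)` of these
triples, if `(a, b, c)` is admissible, the number of `1 ≤ t ≤ x` for which `a t² + b t + c` is a prime is given by the
formula of Hardy and Littlewood, with the true constant `C(a, b, c)` and the relative error `(log H) ^ (-U)`, for ALL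
lengths `x` between `H ^ ε` and `H / (log H) ^ B` simultaneously.
-/

namespace Pool.Agent.Results.MP_a17b09_nt.AlmostAllTriples

open Finset Filter Topology

/-- the triples of Conjecture F -/
def Admissible (a b c : ℤ) : Prop :=
  0 < a ∧ Int.gcd (Int.gcd a b) c = 1 ∧ ¬ (Even (a + b) ∧ Even c) ∧ ¬ IsSquare (b ^ 2 - 4 * a * c)

/-- the triples `(a, b, c)` with `1 ≤ a ≤ H`, `|b| ≤ H`, `|c| ≤ H` -/
noncomputable def triples (H : ℕ) : Finset (ℤ × ℤ × ℤ) := Icc (1 : ℤ) H ×ˢ Icc (-(H : ℤ)) H ×ˢ Icc (-(H : ℤ)) H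

open Classical in
/-- `π_f(x)`, the number of `1 ≤ t ≤ x` such that `f(t) = a t² + b t + c` is a (positive) prime -/
noncomputable def primeCount (a b c : ℤ) (x : ℕ) : ℕ :=
  ((Icc 1 x).filter (fun t : ℕ => ∃ q : ℕ, q.Prime ∧ a * (t : ℤ) ^ 2 + b * t + c = q)).card

/-- the sum of `1 / log f(t)` over the `1 ≤ t ≤ x` with `f(t) = a t² + b t + c ≥ 2` -/
noncomputable def logSum (a b c : ℤ) (x : ℕ) : ℝ :=
  ∑ t ∈ (Icc 1 x).filter (fun t : ℕ => 2 ≤ a * (t : ℤ) ^ 2 + b * t + c),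
    1 / Real.log ((a * (t : ℤ) ^ 2 + b * t + c : ℤ) : ℝ)

/-- the constant `C(a, b, c)` of Conjecture F, the product being taken over the primes `p ≤ z` -/
noncomputable def cutC (a b c : ℤ) (z : ℕ) : ℝ :=
  (if Odd (a + b) then 1 / 2 else 1) *
  (∏ p ∈ (Icc 3 z).filter (fun p : ℕ => p.Prime ∧ p ∣ Int.gcd a b), (p : ℝ) / (p - 1)) *
  ∏ p ∈ (Icc 3 z).filter (fun p : ℕ => p.Prime ∧ ¬ (p : ℤ) ∣ a),
    (1 - (jacobiSym (b ^ 2 - 4 * a * c) p : ℝ) / (p - 1))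

section aux
open Pool.Agent.TH892 Pool.Agent.W468.ConjF
open Pool.Agent.H300R2.BH (lF)

lemma adm_iff {a b c : ℤ} (h : Admissible a b c) : Pool.Agent.W468.ConjF.Admissible a b c := by
  obtain ⟨h0, h1, h2, h3⟩ := h
  refine ⟨h0, ?_, ?_, h3⟩
  · intro d hda hdb hdc
    have h4 : d ∣ ((Int.gcd (Int.gcd a b) c : ℕ) : ℤ) := Int.dvd_coe_gcd (Int.dvd_coe_gcd hda hdb) hdc
    rw [h1] at h4
    exact isUnit_of_dvd_one (by exact_mod_cast h4)
  · rintro ⟨h4, h5⟩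
    exact h2 ⟨even_iff_two_dvd.2 h4, even_iff_two_dvd.2 h5⟩

lemma cut_eq (a b c : ℤ) (z : ℕ) : CF a b c z = cutC a b c z := by
  unfold CF cutC
  have e1 : (if (2 : ℤ) ∣ a + b then (1 : ℝ) else 1 / 2) = if Odd (a + b) then 1 / 2 else 1 := by
    by_cases h : (2 : ℤ) ∣ a + b
    · rw [if_pos h, if_neg]
      rw [Int.not_odd_iff_even, even_iff_two_dvd]
      exact h
    · rw [if_neg h, if_pos]
      rw [← Int.not_even_iff_odd, even_iff_two_dvd]
      exact h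
  rw [e1]
  have e2 : (range (z + 1)).filter (fun p : ℕ => p.Prime ∧ 3 ≤ p ∧ (p : ℤ) ∣ a ∧ (p : ℤ) ∣ b) =
      (Icc 3 z).filter (fun p : ℕ => p.Prime ∧ p ∣ Int.gcd a b) := by
    ext p
    rw [mem_filter, mem_filter, mem_range, mem_Icc]
    have h1 : ((p : ℤ) ∣ a ∧ (p : ℤ) ∣ b) ↔ p ∣ Int.gcd a b := by
      rw [← Int.dvd_coe_gcd_iff]
      norm_cast
    rw [h1]
    constructor
    · rintro ⟨h2, h3, h4, h5⟩
      exact ⟨⟨h4, by omega⟩, h3, h5⟩
    · rintro ⟨⟨h4, h2⟩, h3, h5⟩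
      exact ⟨by omega, h3, h4, h5⟩
  have e3 : (range (z + 1)).filter (fun p : ℕ => p.Prime ∧ 3 ≤ p ∧ ¬ (p : ℤ) ∣ a) =
      (Icc 3 z).filter (fun p : ℕ => p.Prime ∧ ¬ (p : ℤ) ∣ a) := by
    ext p
    rw [mem_filter, mem_filter, mem_range, mem_Icc]
    constructor
    · rintro ⟨h2, h3, h4, h5⟩
      exact ⟨⟨h4, by omega⟩, h3, h5⟩
    · rintro ⟨⟨h4, h2⟩, h3, h5⟩
      exact ⟨by omega, h3, h4, h5⟩
  rw [e2, e3]

lemma pi_eq (a b c : ℤ) (x : ℕ) : piF a b c x = primeCount a b c x := by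
  classical
  unfold piF primeCount
  refine congrArg card (Finset.ext fun t => ?_)
  rw [mem_filter, mem_filter]
  apply and_congr Iff.rfl
  constructor
  · intro h
    exact ⟨_, h, by have := h.pos; omega⟩
  · rintro ⟨q, hq, h⟩
    rw [h, Int.toNat_natCast]
    exact hq

lemma log_eq (a b c : ℤ) (x : ℕ) : lF (P a b c) x = logSum a b c x := by
  unfold lF logSum
  simp only [eval_P]

end aux

/-- **Conjecture F for almost all triples, all lengths simultaneously.** -/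
theorem result (ε : ℝ) (hε : 0 < ε) (U : ℕ) : ∃ B H₀ : ℕ, ∀ H : ℕ, H₀ ≤ H →
    ∃ Bad ⊆ triples H, (Bad.card : ℝ) ≤ ((triples H).card : ℝ) / Real.log H ^ U ∧
    ∀ a b c : ℤ, (a, b, c) ∈ triples H → (a, b, c) ∉ Bad → Admissible a b c →
      ∃ C : ℝ, 0 < C ∧ Tendsto (fun z => cutC a b c z) atTop (𝓝 C) ∧
        ∀ x : ℕ, (H : ℝ) ^ ε ≤ x → (x : ℝ) ≤ H / Real.log H ^ B →
          |(primeCount a b c x : ℝ) - 2 * C * logSum a b c x| ≤ 2 * C * logSum a b c x / Real.log H ^ U := by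
  obtain ⟨B, H₀, h⟩ := Pool.Agent.Q25.Tri.triples ε hε U
  refine ⟨B, H₀ + 3, fun H hH => ?_⟩
  obtain ⟨Bad, h1, h2, h3⟩ := h H (by omega)
  refine ⟨Bad, h1, h2, fun a b c ht htB hadm => ?_⟩
  obtain ⟨C, hC0, hC, hK⟩ := h3 (a, b, c) ht htB (adm_iff hadm)
  refine ⟨C, hC0, ?_, fun x hx1 hx2 => ?_⟩
  · simpa only [cut_eq] using hC
  · have hL : 0 < Real.log H := Real.log_pos (by exact_mod_cast (by omega : 1 < H))
    have h4 := hK x hx1 (by rwa [le_div_iff₀ (by positivity)] at hx2)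
    rw [pi_eq, log_eq] at h4
    exact h4

end Pool.Agent.Results.MP_a17b09_nt.AlmostAllTriples
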