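import Pool.Agent.Q25.RSet2

set_option autoImplicit false

/-!
# Prime values of quadratic polynomials at the elements of an ARBITRARY set, for almost all constant terms

Let `S` be ANY set of natural numbers, and let `n` be a random integer below `b ^ k` with independent digits (for
instance uniformly distributed, or with restricted digits). Let `α_j > 0` and `β_j` be fixed. For almost all vectors of
constant terms `c_j` of the order of `b ^ (2 k)` the probability that `n` is in `S` and that all the numbers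
`α_j n² + β_j n + c_j` are primes is predicted by the `n` in `S` for which these numbers have no prime factor up to
`z`, where `z` is only a power of `k`, i.e. of `log n`.
-/

namespace Pool.Agent.Results.MP_a17b09_nt.ArbitrarySets

open Finset

/-- `w i d` is the probability that the digit number `i` is equal to `d`; no digit has a probability larger than
`1 - η` -/
structure Digits (b : ℕ) (η : ℝ) (w : ℕ → ℕ → ℝ) : Prop where
  nonneg : ∀ i d, 0 ≤ w i d
  sum : ∀ i, ∑ d ∈ range b, w i d = 1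
  le : ∀ i d, w i d ≤ 1 - η

/-- the probability of the integer `n < b ^ k`, the product of the probabilities of its digits -/
noncomputable def weight (b : ℕ) (w : ℕ → ℕ → ℝ) (k n : ℕ) : ℝ := ∏ i ∈ range k, w i (n / b ^ i % b)

open Classical in
/-- the probability that `n < b ^ k` has the property `T` -/
noncomputable def prob (b : ℕ) (w : ℕ → ℕ → ℝ) (k : ℕ) (T : ℕ → Prop) : ℝ :=
  ∑ n ∈ (range (b ^ k)).filter T, weight b w k n

/-- the value of the polynomial `α x² + β x + c` at `n` -/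
def f (α β : ℤ) (c : ℕ) (n : ℕ) : ℤ := α * (n : ℤ) ^ 2 + β * n + c

/-- `n` is in `S` and all the values at `n` are (positive) primes -/
def Hit (S : Set ℕ) {r : ℕ} (α β : Fin r → ℤ) (c : Fin r → ℕ) (n : ℕ) : Prop :=
  n ∈ S ∧ ∀ j, ∃ q : ℕ, q.Prime ∧ f (α j) (β j) (c j) n = q

open Classical in
/-- the expectation of the product of the logarithms of the values, counted only if `n` is in `S` and they are all
primes -/
noncomputable def R (b : ℕ) (w : ℕ → ℕ → ℝ) (k : ℕ) (S : Set ℕ) {r : ℕ} (α β : Fin r → ℤ) (c : Fin r → ℕ) : ℝ :=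
  ∑ n ∈ (range (b ^ k)).filter (Hit S α β c), weight b w k n * ∏ j, Real.log (f (α j) (β j) (c j) n : ℝ)

/-- the primes up to `z` -/
def primes (z : ℕ) : Finset ℕ := (Icc 1 z).filter Nat.Prime

/-- the prediction: the probability that `n` is in `S` and that all the values are positive and have no prime factor up
to `z`, divided by the `r`-th power of the product of `1 - 1 / p` over the primes `p ≤ z` -/
noncomputable def M (b : ℕ) (w : ℕ → ℕ → ℝ) (k z : ℕ) (S : Set ℕ) {r : ℕ} (α β : Fin r → ℤ) (c : Fin r → ℕ) : ℝ :=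
  (∏ p ∈ primes z, (1 - 1 / (p : ℝ)))⁻¹ ^ r *
    prob b w k (fun n => n ∈ S ∧ ∀ j, 1 ≤ f (α j) (β j) (c j) n ∧ ∀ p ∈ primes z, ¬ (p : ℤ) ∣ f (α j) (β j) (c j) n)

/-- the expectation is predicted up to `k ^ (-U)`, and the probability that `n` is in `S` and all the values are primes
up to a factor `1 ± ε` and up to `k ^ (-U)` -/
def Good (b : ℕ) (w : ℕ → ℕ → ℝ) (k z U : ℕ) (ε : ℝ) (S : Set ℕ) {r : ℕ} (α β : Fin r → ℤ) (c : Fin r → ℕ) : Prop :=
  |R b w k S α β c - M b w k z S α β c| ≤ 1 / (k : ℝ) ^ U ∧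
  |(2 * k * Real.log b) ^ r * prob b w k (Hit S α β c) - M b w k z S α β c| ≤
    ε * M b w k z S α β c + 1 / (k : ℝ) ^ U

section aux
open Pool.Agent.TH872.Sq Pool.Agent.Q25.RDig
open Pool.Agent.H373R2.T7 (pz Vz mem_pz)

lemma f_eq (α β : ℤ) (c : ℕ) (n : ℕ) : f α β c n = qv α β n + (c : ℤ) := by unfold f qv; ring

lemma all_iff (S : Set ℕ) {r : ℕ} (α β : Fin r → ℤ) (c : Fin r → ℕ) (n : ℕ) :
    Hit S α β c n ↔ n ∈ S ∧ ∀ j, (qv (α j) (β j) n + (c j : ℤ)).toNat.Prime := by
  unfold Hit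
  apply and_congr Iff.rfl
  apply forall_congr'
  intro j
  rw [f_eq]
  constructor
  · rintro ⟨q, hq, h⟩
    rw [h, Int.toNat_natCast]
    exact hq
  · intro h
    exact ⟨_, h, by have := h.pos; omega⟩

lemma PS_eq (b : ℕ) (w : ℕ → ℕ → ℝ) (k : ℕ) (S : Set ℕ) {r : ℕ} (α β : Fin r → ℤ) (c : Fin r → ℕ) :
    PS b w k S α β (fun j => (c j : ℤ)) = prob b w k (Hit S α β c) := by
  unfold PS prob P weight
  simp only [zero_add]
  refine sum_congr (Finset.ext fun n => ?_) (fun _ _ => rfl)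
  simp only [mem_filter, all_iff]

lemma ES_eq' (b : ℕ) (w : ℕ → ℕ → ℝ) (k : ℕ) (S : Set ℕ) {r : ℕ} (α β : Fin r → ℤ) (c : Fin r → ℕ) :
    ES b w k S α β (fun j => (c j : ℤ)) = R b w k S α β c := by
  unfold ES R P weight
  simp only [zero_add]
  refine sum_congr (Finset.ext fun n => ?_) (fun n _ => ?_)
  · simp only [mem_filter, all_iff]
  · simp only [f_eq]

lemma MS_eq' (b : ℕ) (w : ℕ → ℕ → ℝ) (k z : ℕ) (S : Set ℕ) {r : ℕ} (α β : Fin r → ℤ) (c : Fin r → ℕ) :
    MS b w k z S α β (fun j => (c j : ℤ)) = M b w k z S α β c := by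
  unfold MS M prob P weight
  simp only [zero_add]
  have e0 : (∏ p ∈ primes z, (1 - 1 / (p : ℝ))) = Vz z := rfl
  rw [e0]
  congr 1
  refine sum_congr (Finset.ext fun n => ?_) (fun _ _ => rfl)
  simp only [mem_filter, f_eq]
  apply and_congr Iff.rfl
  apply and_congr Iff.rfl
  apply forall_congr'
  intro j
  apply and_congr_right
  intro h
  have e1 : primes z = pz z := rfl
  rw [e1]
  apply forall₂_congr
  intro p _
  have h2 : (((qv (α j) (β j) n + (c j : ℤ)).toNat : ℕ) : ℤ) = qv (α j) (β j) n + (c j : ℤ) := Int.toNat_of_nonneg (by omega)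
  rw [← Int.natCast_dvd_natCast, h2]

end aux

open Classical in
/-- **Transference for quadratic polynomials at the elements of an arbitrary set.** -/
theorem result (b : ℕ) (hb : 2 ≤ b) (η : ℝ) (hη : 0 < η) (r : ℕ) (α β : Fin r → ℤ) (hα : ∀ j, 0 < α j)
    (F U : ℕ) (ε : ℝ) (hε : 0 < ε) :
    ∃ B : ℕ, ∀ E : ℕ, ∃ K₀ : ℕ, ∀ k : ℕ, K₀ ≤ k → ∀ z : ℕ, (k : ℝ) ^ B ≤ z → (z : ℝ) ≤ (k : ℝ) ^ E →
    ∀ w : ℕ → ℕ → ℝ, Digits b η w → ∀ S : Set ℕ,
    ∀ X : Fin r → ℕ, (∀ j, b ^ (2 * k) ≤ X j ∧ X j ≤ F * b ^ (2 * k)) →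
    (((Fintype.piFinset (fun j : Fin r => Icc 1 (X j))).filter (fun c => ¬ Good b w k z U ε S α β c)).card : ℝ) ≤
      (∏ j, (X j : ℝ)) / (k : ℝ) ^ U := by
  obtain ⟨B, h1⟩ := Pool.Agent.Q25.RDig.set_quad b hb η hη r α β hα F U ε hε
  refine ⟨B, fun E => ?_⟩
  obtain ⟨K₀, h2⟩ := h1 E
  refine ⟨K₀, fun k hk z hz1 hz2 w hw S X hX => ?_⟩
  apply h2 k hk z hz1 hz2 w ⟨hw.nonneg, hw.sum, hw.le⟩ S X hX
  intro c _ hc _
  rw [MS_eq', ES_eq', PS_eq]
  exact hc

end Pool.Agent.Results.MP_a17b09_nt.ArbitrarySets
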