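import Mathlib
import Pool.Agent.TH881.RQ.Wrap

/-!
# The constant terms `c` for which `a t² + b t + c` is prime for some `t` in a given dense set: the minimal density

Let `a > 0` and `b` be fixed, and let `T` be a set of natural numbers (or of primes) of lower density at least `β`
(relative to the primes). The lower density of the set of the `c` for which `a t² + b t + c` is a prime for some `t ∈ T`
is at least `F(β)`, where `F(β)` is given by congruence conditions only, and `F(β)` is asymptotic to
`e ^ (-γ) / log log (1 / β)` as `β` tends to `0`.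
-/

set_option autoImplicit false

namespace Pool.Agent.Results.MP_a17b09_nt.DenseArguments

open Finset Filter Topology

open Classical in
/-- The number of elements of `S` in `[1, x]`. -/
noncomputable def count (S : Set ℕ) (x : ℕ) : ℕ := ((Icc 1 x).filter (fun n => n ∈ S)).card

/-- The lower asymptotic density. -/
noncomputable def lowerDensity (S : Set ℕ) : ℝ := liminf (fun x : ℕ => (count S x : ℝ) / x) atTop

/-- The arguments: the primes if `pr` is true, all natural numbers otherwise. -/
def args (pr : Bool) : Set ℕ := {t | pr = true → t.Prime}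

/-- The lower density of the set of the arguments in `T`, relative to the set of all arguments. -/
noncomputable def relLower (pr : Bool) (T : Set ℕ) : ℝ :=
  liminf (fun x : ℕ => (count {t | t ∈ args pr ∧ t ∈ T} x : ℝ) / (count {t | t ∈ args pr} x : ℝ)) atTop

/-- The natural numbers `c` for which `a t² + b t + c` is a (positive) prime for some argument `t ∈ T`. -/
def hits (pr : Bool) (a b : ℤ) (T : Set ℕ) : Set ℕ :=
  {c | ∃ t p : ℕ, t ∈ args pr ∧ t ∈ T ∧ p.Prime ∧ a * (t : ℤ) ^ 2 + b * t + c = p}

/-- `F(β)`: the infimum of the lower densities of `hits pr a b T` for the sets `T` of relative lower density at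
least `β`. -/
noncomputable def F (pr : Bool) (a b : ℤ) (β : ℝ) : ℝ :=
  sInf {d | ∃ T : Set ℕ, β ≤ relLower pr T ∧ d = lowerDensity (hits pr a b T)}

/-- The product of the primes up to `w`. -/
def P (w : ℕ) : ℕ := ∏ p ∈ (Icc 1 w).filter Nat.Prime, p

instance (w : ℕ) : NeZero (P w) := ⟨(Pool.Agent.TH881.Wp_pos w).ne'⟩

open Classical in
/-- The residue classes of the arguments modulo `P w`: the units for prime arguments, else all. -/
noncomputable def classes (pr : Bool) (w : ℕ) : Finset (ZMod (P w)) :=
  univ.filter (fun t => pr = true → IsUnit t)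

open Classical in
/-- The classes `c` modulo `P w` for which `a t² + b t + c` is a unit for some `t ∈ B`. -/
noncomputable def localHits (a b : ℤ) (w : ℕ) (B : Finset (ZMod (P w))) : Finset (ZMod (P w)) :=
  univ.filter (fun c => ∃ t ∈ B, IsUnit (a * t ^ 2 + b * t + c))

/-- The local minimum: the infimum of `|localHits a b w B| / P w` over all `w` and all sets `B` of at least the
proportion `β` of the residue classes of the arguments modulo `P w`. -/
noncomputable def localF (pr : Bool) (a b : ℤ) (β : ℝ) : ℝ := sInf {d | ∃ w : ℕ, ∃ B ⊆ classes pr w,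
  β * (classes pr w).card ≤ B.card ∧ d = ((localHits a b w B).card : ℝ) / P w}

open Polynomial in
/-- the polynomial `a X² + b X` -/
noncomputable def G (a b : ℤ) : ℤ[X] := C a * X ^ 2 + C b * X + C 0

open Polynomial in
lemma G_eval (a b : ℤ) (t : ℤ) : (G a b).eval t = a * t ^ 2 + b * t := by simp [G]

open Polynomial Pool.Agent.TH881.RQ in
lemma hit_eq (pr : Bool) (a b : ℤ) (T : Set ℕ) : hit pr (G a b) 1 T = hits pr a b T := by
  ext c
  constructor
  · rintro ⟨t, ht, hT, hp⟩
    refine ⟨t, _, ht, hT, hp, ?_⟩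
    rw [G_eval, one_mul] at hp ⊢
    have h1 := hp.pos
    have e : a * (t : ℤ) ^ 2 + b * t + c = (c : ℤ) + (a * (t : ℤ) ^ 2 + b * t) := by ring
    rw [e]
    generalize (c : ℤ) + (a * (t : ℤ) ^ 2 + b * t) = y at h1 ⊢
    omega
  · rintro ⟨t, p, ht, hT, hp, h⟩
    refine ⟨t, ht, hT, ?_⟩
    have e : (c : ℤ) + 1 * (G a b).eval (t : ℤ) = a * (t : ℤ) ^ 2 + b * t + c := by rw [G_eval]; ring
    rw [e, h, Int.toNat_natCast]
    exact hp

open Polynomial Pool.Agent.TH881.RQ in
lemma F_eq (pr : Bool) (a b : ℤ) (β : ℝ) : F pr a b β = FFq pr (G a b) 1 β := by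
  unfold F FFq
  congr 1
  ext d
  constructor
  · rintro ⟨T, h1, h2⟩
    refine ⟨T, h1, ?_⟩
    rw [hit_eq]
    exact h2
  · rintro ⟨T, h1, h2⟩
    refine ⟨T, h1, ?_⟩
    rw [hit_eq] at h2
    exact h2

open Polynomial Pool.Agent.TH881 Pool.Agent.TH881.RQ in
open Classical in
lemma sumq_eq (a b : ℤ) (w : ℕ) (B : Finset (ZMod (Wp w))) : sumq (G a b) 1 w B =
    univ.filter (fun c => ∃ t ∈ B, IsUnit (a * t ^ 2 + b * t + c)) := by
  unfold sumq gd gv
  ext c
  simp only [mem_filter, mem_univ, true_and]
  apply exists_congr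
  intro t
  apply and_congr_right
  intro _
  have e : c + ((1 : ℤ) : ZMod (Wp w)) * ((G a b).map (Int.castRingHom (ZMod (Wp w)))).eval t =
      a * t ^ 2 + b * t + c := by
    have e1 : ((G a b).map (Int.castRingHom (ZMod (Wp w)))).eval t = a * t ^ 2 + b * t := by
      simp [G, eval_intCast]
    rw [e1]
    push_cast
    ring
  rw [e]

open Polynomial Pool.Agent.TH881 Pool.Agent.TH881.RQ in
lemma localHits_eq (a b : ℤ) (w : ℕ) (B : Finset (ZMod (Wp w))) :
    ((localHits a b w B).card : ℝ) / P w = ((sumq (G a b) 1 w B).card : ℝ) / Wp w := by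
  rw [sumq_eq]
  rfl

open Polynomial Pool.Agent.TH881 Pool.Agent.TH881.RG Pool.Agent.TH881.RQ in
lemma localF_eq (pr : Bool) (a b : ℤ) (β : ℝ) : localF pr a b β = Flocq pr (G a b) 1 β := by
  unfold localF Flocq
  congr 1
  ext d
  constructor
  · rintro ⟨w, B, h0, h1, h2⟩
    exact ⟨w, B, h0, h1, h2.trans (localHits_eq a b w B)⟩
  · rintro ⟨w, B, h0, h1, h2⟩
    exact ⟨w, B, h0, h1, h2.trans (localHits_eq a b w B).symm⟩

/-- Let `a > 0`. For both kinds of arguments, `F(β)` is equal to the local minimum for `0 < β < 1`, and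
`log log (1 / β) F(β)` tends to `e ^ (-γ)` as `β` tends to `0` from above. -/
theorem result (pr : Bool) (a b : ℤ) (ha : 0 < a) :
    (∀ β : ℝ, 0 < β → β < 1 → F pr a b β = localF pr a b β) ∧
    Tendsto (fun β : ℝ => Real.log (Real.log (1 / β)) * F pr a b β) (𝓝[>] 0)
      (𝓝 (Real.exp (-Real.eulerMascheroniConstant))) := by
  have hd : 2 ≤ (G a b).natDegree := (Polynomial.natDegree_quadratic ha.ne').ge
  have hl : 0 < (G a b).leadingCoeff := by
    unfold G
    rw [Polynomial.leadingCoeff_quadratic ha.ne']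
    exact ha
  refine ⟨fun β h0 h1 => ?_, ?_⟩
  · rw [F_eq, localF_eq]
    exact Pool.Agent.TH881.RQ.formula pr _ hd hl 1 (Or.inl rfl) β h0 h1
  · simp only [F_eq]
    exact Pool.Agent.TH881.RQ.law_zero pr _ hd hl 1 (Or.inl rfl)

end Pool.Agent.Results.MP_a17b09_nt.DenseArguments
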