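import Pool.Agent.Q25.RDig2

set_option autoImplicit false

/-!
# Conjecture F at integers with independent random digits, for almost all constant terms

The digits of `n < b ^ k` in base `b` are independent random variables with arbitrary distributions, no digit having a
probability larger than `1 - η` (for instance, `n` may be a random integer with restricted digits). Let `α_j > 0` and
`β_j` be fixed integers. For almost all vectors `c` of constant terms `c_j` of the order of `b ^ (2 k)` the probability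
that all the numbers `α_j n² + β_j n + c_j` are primes is the one predicted by Hardy and Littlewood.
-/

namespace Pool.Agent.Results.MP_a17b09_nt.RandomDigitSystems

open Finset

/-- `w i d` is the probability that the digit number `i` is equal to `d`; no digit has a probability larger than
`1 - η` -/
structure Digits (b : ℕ) (η : ℝ) (w : ℕ → ℕ → ℝ) : Prop where
  nonneg : ∀ i d, 0 ≤ w i d
  sum : ∀ i, ∑ d ∈ range b, w i d = 1
  le : ∀ i d, w i d ≤ 1 - η

/-- the probability of the integer `n < b ^ k`, the product of the probabilities of its digits -/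
noncomputable def weight (b : ℕ) (w : ℕ → ℕ → ℝ) (k n : ℕ) : ℝ := ∏ i ∈ range k, w i (n / b ^ i % b)

open Classical in
/-- the probability that `n < b ^ k` has the property `S` -/
noncomputable def prob (b : ℕ) (w : ℕ → ℕ → ℝ) (k : ℕ) (S : ℕ → Prop) : ℝ :=
  ∑ n ∈ (range (b ^ k)).filter S, weight b w k n

/-- the value of the polynomial `α x² + β x + c` at `n` -/
def f (α β : ℤ) (c : ℕ) (n : ℕ) : ℤ := α * (n : ℤ) ^ 2 + β * n + c

/-- all the values at `n` are (positive) primes -/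
def AllPrime {r : ℕ} (α β : Fin r → ℤ) (c : Fin r → ℕ) (n : ℕ) : Prop :=
  ∀ j, ∃ q : ℕ, q.Prime ∧ f (α j) (β j) (c j) n = q

open Classical in
/-- the expectation of the product of the logarithms of the values, counted only if they are all primes -/
noncomputable def R (b : ℕ) (w : ℕ → ℕ → ℝ) (k : ℕ) {r : ℕ} (α β : Fin r → ℤ) (c : Fin r → ℕ) : ℝ :=
  ∑ n ∈ (range (b ^ k)).filter (AllPrime α β c), weight b w k n * ∏ j, Real.log (f (α j) (β j) (c j) n : ℝ)

/-- the primes up to `z` -/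
def primes (z : ℕ) : Finset ℕ := (Icc 1 z).filter Nat.Prime

/-- the number of the residues `a` modulo `p` at which `p` divides one of the values -/
def nu {r : ℕ} (α β : Fin r → ℤ) (c : Fin r → ℕ) (p : ℕ) : ℕ :=
  ((range p).filter (fun a : ℕ => ∃ j, (p : ℤ) ∣ f (α j) (β j) (c j) a)).card

/-- the prediction: the factor at the primes up to the base `b`, and the product over the primes `p` with
`b < p ≤ z` of `(1 - ν(p) / p) / (1 - 1 / p) ^ r` -/
noncomputable def sigma (b : ℕ) (w : ℕ → ℕ → ℝ) (k z : ℕ) {r : ℕ} (α β : Fin r → ℤ) (c : Fin r → ℕ) : ℝ :=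
  (∏ p ∈ primes b, (1 - 1 / (p : ℝ)))⁻¹ ^ r *
    prob b w k (fun n => ∀ p ∈ primes b, ∀ j, ¬ (p : ℤ) ∣ f (α j) (β j) (c j) n) *
    ∏ p ∈ (primes z).filter (fun p => b < p), ((1 - (nu α β c p : ℝ) / p) / (1 - 1 / (p : ℝ)) ^ r)

/-- the expectation is predicted up to `k ^ (-U)`, and the probability that all the values are primes up to a factor
`1 ± ε` and up to `k ^ (-U)` -/
def Good (b : ℕ) (w : ℕ → ℕ → ℝ) (k z U : ℕ) (ε : ℝ) {r : ℕ} (α β : Fin r → ℤ) (c : Fin r → ℕ) : Prop :=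
  |R b w k α β c - sigma b w k z α β c| ≤ 1 / (k : ℝ) ^ U ∧
  |(2 * k * Real.log b) ^ r * prob b w k (AllPrime α β c) - sigma b w k z α β c| ≤
    ε * sigma b w k z α β c + 1 / (k : ℝ) ^ U

section aux
open Pool.Agent.TH872.Sq Pool.Agent.Q25.RDig
open Pool.Agent.H373R2.T7 (pz Vz mem_pz)

lemma all_iff {r : ℕ} (α β : Fin r → ℤ) (c : Fin r → ℕ) (n : ℕ) :
    AllPrime α β c n ↔ ∀ j, (qv (α j) (β j) n + (c j : ℤ)).toNat.Prime := by
  unfold AllPrime
  apply forall_congr'
  intro j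
  have e : f (α j) (β j) (c j) n = qv (α j) (β j) n + (c j : ℤ) := by unfold f qv; ring
  rw [e]
  constructor
  · rintro ⟨q, hq, h⟩
    rw [h, Int.toNat_natCast]
    exact hq
  · intro h
    exact ⟨_, h, by have := h.pos; omega⟩

lemma Pr_eq (b : ℕ) (w : ℕ → ℕ → ℝ) (k : ℕ) {r : ℕ} (α β : Fin r → ℤ) (c : Fin r → ℕ) :
    Pr b w k α β (fun j => (c j : ℤ)) = prob b w k (AllPrime α β c) := by
  unfold Pr prob P weight
  simp only [zero_add]
  refine sum_congr (Finset.ext fun n => ?_) (fun _ _ => rfl)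
  simp only [mem_filter, all_iff]

lemma E1_eq' (b : ℕ) (w : ℕ → ℕ → ℝ) (k : ℕ) {r : ℕ} (α β : Fin r → ℤ) (c : Fin r → ℕ) :
    E1 b w k α β (fun j => (c j : ℤ)) = R b w k α β c := by
  rw [E1_eq]
  unfold R P weight
  simp only [zero_add]
  refine sum_congr (Finset.ext fun n => ?_) (fun n _ => ?_)
  · simp only [mem_filter, all_iff]
  · congr 1

lemma Sg_eq' (b : ℕ) (w : ℕ → ℕ → ℝ) (k : ℕ) {r : ℕ} (α β : Fin r → ℤ) (c : Fin r → ℕ) (z : ℕ) (hz : b ≤ z) :
    Sg b w 0 k α β (fun j => (c j : ℤ)) z = sigma b w k z α β c := by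
  rw [Sg_split b w k _ _ _ z hz]
  unfold sigma prob P weight
  simp only [zero_add]
  have h1 : ∑ n ∈ (range (b ^ k)).filter (fun n : ℕ => ∀ p ∈ pz b, ¬ ∃ j, (p : ℤ) ∣ α j * (n : ℤ) ^ 2 + β j * n + (c j : ℤ)),
      ∏ x ∈ range k, w x (n / b ^ x % b) = ∑ n ∈ @Finset.filter ℕ (fun n => ∀ p ∈ primes b, ∀ j, ¬ (p : ℤ) ∣ f (α j) (β j) (c j) n)
        (fun n => Classical.propDecidable _) (range (b ^ k)), ∏ x ∈ range k, w x (n / b ^ x % b) := by
    refine sum_congr (Finset.ext fun n => ?_) (fun _ _ => rfl)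
    simp only [mem_filter, not_exists]
    rfl
  rw [h1]
  rfl

end aux

open Classical in
/-- **Conjecture F for systems, `n` with independent random digits, for almost all constant terms.** For one polynomial
the factors of the prediction at the primes `p > b` are those of the constant `C(α, β, c)`. -/
theorem result :
    (∀ (b : ℕ), 2 ≤ b → ∀ (η : ℝ), 0 < η → ∀ (r : ℕ) (α β : Fin r → ℤ), (∀ j, 0 < α j) →
      ∀ (F U : ℕ) (ε : ℝ), 0 < ε →
      ∃ B : ℕ, ∀ E : ℕ, ∃ K₀ : ℕ, ∀ k : ℕ, K₀ ≤ k → ∀ z : ℕ, (k : ℝ) ^ B ≤ z → (z : ℝ) ≤ (k : ℝ) ^ E →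
      ∀ w : ℕ → ℕ → ℝ, Digits b η w → ∀ X : Fin r → ℕ, (∀ j, b ^ (2 * k) ≤ X j ∧ X j ≤ F * b ^ (2 * k)) →
      (((Fintype.piFinset (fun j : Fin r => Icc 1 (X j))).filter (fun c => ¬ Good b w k z U ε α β c)).card : ℝ) ≤
        (∏ j, (X j : ℝ)) / (k : ℝ) ^ U) ∧
    (∀ (α β : ℤ) (c p : ℕ), p.Prime → 2 < p → ¬ ((p : ℤ) ∣ α ∧ (p : ℤ) ∣ β ∧ p ∣ c) →
      (1 - (nu (fun _ : Fin 1 => α) (fun _ => β) (fun _ => c) p : ℝ) / p) / (1 - 1 / (p : ℝ)) ^ 1 =
        if (p : ℤ) ∣ α then (if (p : ℤ) ∣ β then (p : ℝ) / (p - 1) else 1)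
        else 1 - (jacobiSym (β ^ 2 - 4 * α * c) p : ℝ) / ((p : ℝ) - 1)) := by
  constructor
  · intro b hb η hη r α β hα F U ε hε
    obtain ⟨B, h1⟩ := Pool.Agent.Q25.RDig.main_quad b hb η hη r α β hα F U ε hε
    refine ⟨B + 1, fun E => ?_⟩
    obtain ⟨K₀, h2⟩ := h1 E
    refine ⟨K₀ + b, fun k hk z hz1 hz2 w hw X hX => ?_⟩
    have hk1 : (1 : ℝ) ≤ k := by exact_mod_cast (by omega : 1 ≤ k)
    have hbz : b ≤ z := by
      have h4 : (k : ℝ) ≤ (k : ℝ) ^ (B + 1) := le_self_pow₀ hk1 (by omega)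
      have h5 : (k : ℝ) ≤ z := h4.trans hz1
      have h6 : k ≤ z := by exact_mod_cast h5
      omega
    apply h2 k (by omega) z ((pow_le_pow_right₀ hk1 (Nat.le_succ B)).trans hz1) hz2 w ⟨hw.nonneg, hw.sum, hw.le⟩ X hX
    intro c _ hc _
    rw [Sg_eq' b w k α β c z hbz, E1_eq', Pr_eq]
    exact hc
  · intro α β c p hp hp2 hno
    have hp0 : (p : ℝ) ≠ 0 := by exact_mod_cast hp.ne_zero
    have hp1 : (p : ℝ) - 1 ≠ 0 := by
      have : (1 : ℝ) < p := by exact_mod_cast hp.one_lt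
      linarith
    have e : nu (fun _ : Fin 1 => α) (fun _ => β) (fun _ => c) p =
        ((range p).filter (fun r : ℕ => (p : ℤ) ∣ α * (r : ℤ) ^ 2 + β * r + (c : ℤ))).card := by
      unfold nu f
      congr 1
      apply filter_congr
      intro n _
      rw [exists_const]
    rw [e, pow_one]
    split_ifs with h1 h2
    · rw [Pool.Agent.Q25.RDig.no_count α β c p h1 h2 (fun h => hno ⟨h1, h2, by exact_mod_cast h⟩)]
      field_simp
      simp
    · rw [Pool.Agent.Q25.RDig.lin_count α β c p hp h1 h2]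
      field_simp
      simp
    · have h3 := Pool.Agent.Q25.RDig.quad_count α β c p hp (by omega) h1
      have h4 : ((((range p).filter (fun r : ℕ => (p : ℤ) ∣ α * (r : ℤ) ^ 2 + β * r + (c : ℤ))).card : ℤ) : ℝ) =
          ((jacobiSym (β ^ 2 - 4 * α * c) p + 1 : ℤ) : ℝ) := by rw [h3]
      push_cast at h4
      rw [h4]
      field_simp
      ring

end Pool.Agent.Results.MP_a17b09_nt.RandomDigitSystems
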